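import Pool.Agent.Helper98.LC3.P.Hole

/-!
# LC3-P03: perimeters, areas and cuts of `inn` and `fil`

`J j` means `∃ x ∈ S, c x = j`.  By `cls`, if `J j` then the whole class `j` is contained in `S`, otherwise it is disjoint from `S`.
* `per2_split`: for a dart `d` with ends `x, y`: if `x, y ∉ S`: `fil` has the labels of `c`, `inn` has `i, i`.  If `x, y ∈ S`: `inn` has the labels of `c`, `fil` has `i, i`.  If exactly one of them is in `S`, the
  other one has the label `c = i` (`step`; for `y ∈ S`, `x = y + dir (k + 3)`), so `d` is cut for `c` and for `inn` (`noti`) and not for `fil`.  So in all cases the indicator of `c d.1 ≠ c (tip d)` is the sum of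
  the indicators for `fil` and `inn` (`darts` is a filter of the same finite set).
* `ar_inn`: `j ≠ i`: `inn x = j ↔ x ∈ S ∧ c x = j`.   `ar_fil`: `j ≠ i`: `fil x = j ↔ x ∉ S ∧ c x = j`.
  `ar_fil_i`: `{fil = i} = {c = i} ∪ ⋃_{J j} {c = j}` (disjoint; `S ⊆ ⋃`, `noti`).
* `cut_inn`: for `j ≠ i` with `J j`: `k ≠ i` with `J k`, or `k = i`: the darts `d` with `inn d.1 = j` and `inn (tip d) = k` are the darts with `c d.1 = j`, `c (tip d) = k`
  (for `k = i`: `inn (tip d) = i` means `tip d ∉ S`, then `c (tip d) = i` by `step`).  For the `darts` filter: `cut` of `inn` uses `darts (inn ..) n`, i.e. `d ∈ box (n+1) ×ˢ univ` and the labels are different; `j ≠ k`.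
* `touch_inn`.
-/

namespace Pool.Agent.Helper98.LC3

open Finset Real Pool.Agent.Helper98.LC

variable {ι : Type} [DecidableEq ι]

omit [DecidableEq ι] in
private theorem hs_back {c : V → ι} {o i : ι} {S : Set V} (hS : IsHole c o i S) {x : V} {k : Fin 6}
    (h : x + dir k ∈ S) : x ∈ S ∨ c x = i := by
  have hd : ∀ k : Fin 6, dir k + dir (k + 3) = 0 := by decide
  have h1 := hS.step (x + dir k) h (k + 3)
  rwa [add_assoc, hd, add_zero] at h1

omit [DecidableEq ι] in
private theorem hs_inn {c : V → ι} {o i : ι} {S : Set V} (hS : IsHole c o i S) {j : ι}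
    (hj : ∃ x ∈ S, c x = j) (x : V) : inn c i S x = j ↔ c x = j := by
  obtain ⟨y, hy, hyj⟩ := hj
  unfold inn
  by_cases hx : x ∈ S
  · rw [if_pos hx]
  · rw [if_neg hx]
    constructor
    · intro h
      exact absurd (hyj.trans h.symm) (hS.noti y hy)
    · intro h
      exact absurd (hS.cls y hy x (h.trans hyj.symm)) hx

theorem per2_split (G : Net) {c : V → ι} {o i : ι} {S : Set V} (hS : IsHole c o i S) (n : ℕ) :
    per2 G c n = per2 G (fil c i S) n + per2 G (inn c i S) n := by
  unfold per2 darts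
  rw [sum_filter, sum_filter, sum_filter, ← sum_add_distrib]
  refine sum_congr rfl fun d _ => ?_
  by_cases h1 : d.1 ∈ S
  · have hi1 : inn c i S d.1 = c d.1 := by unfold inn; rw [if_pos h1]
    have hf1 : fil c i S d.1 = i := by unfold fil; rw [if_pos h1]
    by_cases h2 : tip d ∈ S
    · have hi2 : inn c i S (tip d) = c (tip d) := by unfold inn; rw [if_pos h2]
      have hf2 : fil c i S (tip d) = i := by unfold fil; rw [if_pos h2]
      rw [hi1, hf1, hi2, hf2, if_neg (not_not.mpr (rfl : i = i)), zero_add]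
    · have hi2 : inn c i S (tip d) = i := by unfold inn; rw [if_neg h2]
      have hf2 : fil c i S (tip d) = c (tip d) := by unfold fil; rw [if_neg h2]
      have h3 : c (tip d) = i := (hS.step d.1 h1 d.2).resolve_left h2
      rw [hi1, hf1, hi2, hf2, h3, if_neg (not_not.mpr (rfl : i = i)), zero_add]
  · have hi1 : inn c i S d.1 = i := by unfold inn; rw [if_neg h1]
    have hf1 : fil c i S d.1 = c d.1 := by unfold fil; rw [if_neg h1]
    by_cases h2 : tip d ∈ S
    · have hi2 : inn c i S (tip d) = c (tip d) := by unfold inn; rw [if_pos h2]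
      have hf2 : fil c i S (tip d) = i := by unfold fil; rw [if_pos h2]
      have h3 : c d.1 = i := (hs_back hS h2).resolve_left h1
      rw [hi1, hf1, hi2, hf2, h3, if_neg (not_not.mpr (rfl : i = i)), zero_add]
    · have hi2 : inn c i S (tip d) = i := by unfold inn; rw [if_neg h2]
      have hf2 : fil c i S (tip d) = c (tip d) := by unfold fil; rw [if_neg h2]
      rw [hi1, hf1, hi2, hf2, if_neg (not_not.mpr (rfl : i = i)), add_zero]

open Classical in
theorem ar_inn (G : Net) {c : V → ι} {o i : ι} {S : Set V} (hS : IsHole c o i S) (n : ℕ) {j : ι}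
    (hj : j ≠ i) : ar G (inn c i S) n j = if ∃ x ∈ S, c x = j then ar G c n j else 0 := by
  by_cases h : ∃ x ∈ S, c x = j
  · rw [if_pos h]
    unfold ar
    rw [sum_filter, sum_filter]
    refine congrArg (· / A0) (sum_congr rfl fun x _ => ?_)
    by_cases hx : c x = j
    · rw [if_pos hx, if_pos ((hs_inn hS h x).mpr hx)]
    · rw [if_neg hx, if_neg fun h1 => hx ((hs_inn hS h x).mp h1)]
  · rw [if_neg h]
    unfold ar
    rw [sum_filter, sum_eq_zero, zero_div]
    intro x _
    refine if_neg fun h1 => ?_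
    unfold inn at h1
    by_cases hx : x ∈ S
    · rw [if_pos hx] at h1
      exact h ⟨x, hx, h1⟩
    · rw [if_neg hx] at h1
      exact hj h1.symm

open Classical in
theorem ar_fil (G : Net) {c : V → ι} {o i : ι} {S : Set V} (hS : IsHole c o i S) (n : ℕ) {j : ι}
    (hj : j ≠ i) : ar G (fil c i S) n j = if ∃ x ∈ S, c x = j then 0 else ar G c n j := by
  by_cases h : ∃ x ∈ S, c x = j
  · rw [if_pos h]
    unfold ar
    rw [sum_filter, sum_eq_zero, zero_div]
    intro x _
    refine if_neg fun h1 => ?_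
    unfold fil at h1
    by_cases hx : x ∈ S
    · rw [if_pos hx] at h1
      exact hj h1.symm
    · rw [if_neg hx] at h1
      obtain ⟨y, hy, hyj⟩ := h
      exact hx (hS.cls y hy x (h1.trans hyj.symm))
  · rw [if_neg h]
    unfold ar
    rw [sum_filter, sum_filter]
    refine congrArg (· / A0) (sum_congr rfl fun x _ => ?_)
    by_cases hx : x ∈ S
    · have h2 : fil c i S x = i := by unfold fil; rw [if_pos hx]
      rw [h2, if_neg (Ne.symm hj), if_neg fun h3 => h ⟨x, hx, h3⟩]
    · have h2 : fil c i S x = c x := by unfold fil; rw [if_neg hx]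
      rw [h2]

open Classical in
theorem ar_fil_i [Fintype ι] (G : Net) {c : V → ι} {o i : ι} {S : Set V} (hS : IsHole c o i S)
    (n : ℕ) : ar G (fil c i S) n i =
      ar G c n i + ∑ j ∈ univ.filter (fun j => ∃ x ∈ S, c x = j), ar G c n j := by
  unfold ar
  rw [← sum_div, ← add_div]
  refine congrArg (· / A0) ?_
  simp_rw [sum_filter (s := box n)]
  rw [sum_comm, ← sum_add_distrib]
  refine sum_congr rfl fun x _ => ?_
  rw [sum_ite_eq (univ.filter (fun j => ∃ x ∈ S, c x = j)) (c x) (fun _ => G.al x)]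
  by_cases hx : x ∈ S
  · have h2 : fil c i S x = i := by unfold fil; rw [if_pos hx]
    have h3 : c x ∈ univ.filter (fun j => ∃ x ∈ S, c x = j) :=
      mem_filter.mpr ⟨mem_univ _, x, hx, rfl⟩
    rw [h2, if_pos rfl, if_neg (hS.noti x hx), if_pos h3, zero_add]
  · have h2 : fil c i S x = c x := by unfold fil; rw [if_neg hx]
    have h3 : c x ∉ univ.filter (fun j => ∃ x ∈ S, c x = j) := by
      intro h4
      obtain ⟨y, hy, hyx⟩ := (mem_filter.mp h4).2
      exact hx (hS.cls y hy x hyx.symm)
    rw [h2, if_neg h3, add_zero]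

theorem cut_inn (G : Net) {c : V → ι} {o i : ι} {S : Set V} (hS : IsHole c o i S) (n : ℕ)
    {j k : ι} (hj : ∃ x ∈ S, c x = j) (hk : k = i ∨ ∃ x ∈ S, c x = k) :
    cut G (inn c i S) n j k = cut G c n j k := by
  unfold cut darts
  refine sum_congr ?_ fun _ _ => rfl
  ext d
  rw [mem_filter, mem_filter, mem_filter, mem_filter]
  have key : (inn c i S d.1 = j ∧ inn c i S (tip d) = k) ↔ (c d.1 = j ∧ c (tip d) = k) := by
    rw [hs_inn hS hj]
    rcases hk with hk | hk
    · subst hk
      constructor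
      · rintro ⟨h1, h2⟩
        refine ⟨h1, ?_⟩
        obtain ⟨y, hy, hyj⟩ := hj
        have h3 : d.1 ∈ S := hS.cls y hy d.1 (h1.trans hyj.symm)
        rcases hS.step d.1 h3 d.2 with h4 | h4
        · have h5 : tip d ∈ S := h4
          unfold inn at h2
          rw [if_pos h5] at h2
          exact h2
        · exact h4
      · rintro ⟨h1, h2⟩
        refine ⟨h1, ?_⟩
        have h5 : tip d ∉ S := fun h6 => hS.noti _ h6 h2
        unfold inn
        rw [if_neg h5]
    · rw [hs_inn hS hk]
  constructor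
  · rintro ⟨⟨h1, h2⟩, h3⟩
    have h4 := key.mp h3
    refine ⟨⟨h1, ?_⟩, h4⟩
    rw [h3.1, h3.2] at h2
    rw [h4.1, h4.2]
    exact h2
  · rintro ⟨⟨h1, h2⟩, h3⟩
    have h4 := key.mpr h3
    refine ⟨⟨h1, ?_⟩, h4⟩
    rw [h3.1, h3.2] at h2
    rw [h4.1, h4.2]
    exact h2

theorem touch_inn {c : V → ι} {o i : ι} {S : Set V} (hS : IsHole c o i S)
    {j k : ι} (hj : j ≠ i) (h : Touch (inn c i S) j k) :
    (∃ x ∈ S, c x = j) ∧ (k = i ∨ ∃ x ∈ S, c x = k) ∧ Touch c j k := by
  obtain ⟨d, h1, h2, h3⟩ := h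
  unfold IsCut at h1
  rw [h2, h3] at h1
  by_cases hd : d.1 ∈ S
  · unfold inn at h2 h3
    rw [if_pos hd] at h2
    refine ⟨⟨d.1, hd, h2⟩, ?_⟩
    by_cases ht : tip d ∈ S
    · rw [if_pos ht] at h3
      refine ⟨Or.inr ⟨tip d, ht, h3⟩, d, ?_, h2, h3⟩
      unfold IsCut
      rw [h2, h3]
      exact h1
    · rw [if_neg ht] at h3
      have h4 : c (tip d) = i := (hS.step d.1 hd d.2).resolve_left ht
      refine ⟨Or.inl h3.symm, d, ?_, h2, h4.trans h3⟩
      unfold IsCut
      rw [h2, h4, h3]
      exact h1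
  · unfold inn at h2
    rw [if_neg hd] at h2
    exact absurd h2.symm hj

end Pool.Agent.Helper98.LC3
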