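import Pool.Agent.Helper98.LC3.P.Gmin
import Pool.Agent.Helper98.LC3.P.HoleSum
import Pool.Agent.Helper98.LC3.P.NoLoop10

/-!
# LC3-P04: the classes of a global minimiser have no holes

Assume `¬ CoConn c i`, `i ≠ o`.  Then class `i` is not empty (otherwise every step of the grid is an `Off` step and the grid is connected: `grid_exit` for `P = {z | ReflTransGen (Off c i) x z}`), and there is a
hole `S` (`exists_hole`).  Let `a j = ar G c n j`, `J j := ∃ x ∈ S, c x = j` (`J j` implies `j ≠ i`, `j ≠ o`).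
* `Minimal G (inn c i S) i n η` with the outer label `i`: `inn_out`, `inn_conn`; `inner`: for `Touch (inn ..) j k`, `j, k ≠ i`: `touch_inn` gives `J j`, `J k`, `Touch c j k`; `cut_inn`, `ar_inn` and the inequality `inner` of
  `gmin_minimal h` (`j, k ≠ o`).  `outer`: for `Touch (inn ..) j i`: `2 cut c j i < 6 (min 1 a_j + min 1 a_i - min 1 (a_j + a_i)) ≤ 6 min 1 a_j ≤ 6 min 1 a_j + η a_j`.
* `tot (inn ..) i n = ∑_{J j} a j ≤ tot c o n ≤ T`, so `no_loop10` gives `NoLoop (inn ..)`, and `sum_local` (file `LC/F/Sum.lean`) with `lam_nonneg` and `elen ≥ 0` gives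
  `6 ∑_{J j} min 1 (a j) ≤ per2 (inn ..)` (the constants `kap, kap1` are positive).
* `c' = fil c i S`: `fil_out`, `fil_conn`, `ncl_fil`; `tot c' o n = tot c o n` (`ar_fil`, `ar_fil_i`; `i ≠ o`, the labels with `J j` are `≠ o`), and
  `Phi c' - Phi c = - per2 (inn ..) - 6 min 1 (a_i + ∑_J a_j) + 6 min 1 a_i + 6 ∑_J min 1 a_j ≤ 0` (`per2_split`; the `η` terms have the same sum), contradiction to `least`.
-/

namespace Pool.Agent.Helper98.LC3

open Finset Real Pool.Agent.Helper98.LC Pool.Agent.Helper38.LC2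

variable {ι : Type} [DecidableEq ι]

open Classical in
private theorem cc_inn [Fintype ι] (G : Net) {c : V → ι} {o i : ι} {S : Set V}
    (hS : IsHole c o i S) (n : ℕ) (F : ℝ → ℝ) (hF : F 0 = 0) :
    ∑ j ∈ univ.filter (fun j => j ≠ i), F (ar G (inn c i S) n j) =
      ∑ j ∈ univ.filter (fun j => ∃ x ∈ S, c x = j), F (ar G c n j) := by
  rw [sum_filter, sum_filter]
  refine sum_congr rfl fun j _ => ?_
  by_cases hj : j = i
  · subst hj
    have h1 : ¬ ∃ x ∈ S, c x = j := by
      rintro ⟨x, hx, hxj⟩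
      exact hS.noti x hx hxj
    rw [if_neg (fun h => h rfl), if_neg h1]
  · rw [if_pos hj, ar_inn G hS n hj]
    by_cases h1 : ∃ x ∈ S, c x = j
    · rw [if_pos h1, if_pos h1]
    · rw [if_neg h1, if_neg h1, hF]

open Classical in
private theorem cc_fil [Fintype ι] (G : Net) {c : V → ι} {o i : ι} {S : Set V}
    (hS : IsHole c o i S) (n : ℕ) (hi : i ≠ o) (F : ℝ → ℝ) (hF : F 0 = 0) :
    ∑ j ∈ univ.filter (fun j => j ≠ o), F (ar G (fil c i S) n j) +
      ∑ j ∈ univ.filter (fun j => ∃ x ∈ S, c x = j), F (ar G c n j) + F (ar G c n i) =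
      ∑ j ∈ univ.filter (fun j => j ≠ o), F (ar G c n j) +
        F (ar G c n i + ∑ j ∈ univ.filter (fun j => ∃ x ∈ S, c x = j), ar G c n j) := by
  have him : i ∈ univ.filter (fun j => j ≠ o) := mem_filter.2 ⟨mem_univ _, hi⟩
  rw [← add_sum_erase _ _ him, ← add_sum_erase _ (fun j => F (ar G c n j)) him, ar_fil_i G hS n]
  have h1 : ∑ j ∈ univ.filter (fun j => ∃ x ∈ S, c x = j), F (ar G c n j) =
      ∑ j ∈ (univ.filter (fun j => j ≠ o)).erase i,
        if ∃ x ∈ S, c x = j then F (ar G c n j) else 0 := by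
    rw [← sum_filter]
    refine sum_congr ?_ fun _ _ => rfl
    ext j
    rw [mem_filter, mem_filter, mem_erase, mem_filter]
    constructor
    · rintro ⟨_, x, hx, hxj⟩
      refine ⟨⟨?_, mem_univ _, ?_⟩, x, hx, hxj⟩
      · rintro rfl
        exact hS.noti x hx hxj
      · rintro rfl
        exact hS.noto x hx hxj
    · exact fun h => ⟨mem_univ _, h.2⟩
  have h2 : ∑ j ∈ (univ.filter (fun j => j ≠ o)).erase i, F (ar G c n j) =
      ∑ j ∈ (univ.filter (fun j => j ≠ o)).erase i, F (ar G (fil c i S) n j) +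
        ∑ j ∈ univ.filter (fun j => ∃ x ∈ S, c x = j), F (ar G c n j) := by
    rw [h1, ← sum_add_distrib]
    refine sum_congr rfl fun j hj => ?_
    rw [mem_erase] at hj
    rw [ar_fil G hS n hj.1]
    by_cases h3 : ∃ x ∈ S, c x = j
    · rw [if_pos h3, if_pos h3, hF, zero_add]
    · rw [if_neg h3, if_neg h3, add_zero]
  rw [h2]
  ring

private theorem cc_minimal [Fintype ι] {G : Net} {c : V → ι} {o i : ι} {S : Set V} {n : ℕ}
    {η : ℝ} (hη : 0 ≤ η) (hi : i ≠ o) (hS : IsHole c o i S) (h : Minimal G c o n η) :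
    Minimal G (inn c i S) i n η := by
  have hno : ∀ j, (∃ x ∈ S, c x = j) → j ≠ o := by
    rintro j ⟨x, hx, hxj⟩ rfl
    exact hS.noto x hx hxj
  have hni : ∀ j, (∃ x ∈ S, c x = j) → j ≠ i := by
    rintro j ⟨x, hx, hxj⟩ rfl
    exact hS.noti x hx hxj
  refine ⟨inn_out h.out hS, inn_conn h.conn hS, ?_, ?_⟩
  · intro j k hj hk ht
    obtain ⟨h1, h2, h3⟩ := touch_inn hS hj ht
    have h4 : ∃ x ∈ S, c x = k := h2.resolve_left hk
    rw [cut_inn G hS n h1 h2, ar_inn G hS n hj, ar_inn G hS n hk, if_pos h1, if_pos h4]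
    exact h.inner j k (hno j h1) (hno k h4) h3
  · intro j hj ht
    obtain ⟨h1, h2, h3⟩ := touch_inn hS hj ht
    rw [cut_inn G hS n h1 h2, ar_inn G hS n hj, if_pos h1]
    have h4 := h.inner j i (hno j h1) hi h3
    have h5 : min 1 (ar G c n i) ≤ min 1 (ar G c n j + ar G c n i) :=
      min_le_min le_rfl (by linarith [ar_nonneg G c n j])
    have h6 : 0 ≤ η * ar G c n j := mul_nonneg hη (ar_nonneg G c n j)
    linarith

theorem coconn [Fintype ι] {G : Net} {c : V → ι} {o : ι} {n : ℕ} {η T : ℝ} (hη : 0 ≤ η)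
    (hη1 : η ≤ 1 / 10) (hη2 : η * √T ≤ 10) (h : GMin G c o n η) (htot : tot G c o n ≤ T) {i : ι}
    (hi : i ≠ o) : CoConn c i := by
  classical
  by_contra hn
  have hmin := gmin_minimal h
  have hne : ∃ x, c x = i := by
    by_contra hno
    push Not at hno
    apply hn
    intro x y _ _
    by_contra hp
    obtain ⟨z, k, hz, hzk⟩ := grid_exit (fun z => Relation.ReflTransGen (Off c i) x z)
      Relation.ReflTransGen.refl hp
    exact hzk (hz.tail ⟨hno _, hno _, k, rfl⟩)
  obtain ⟨S, hS⟩ := exists_hole h.out h.conn hi hn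
  have hM := cc_minimal hη hi hS hmin
  have hJ : univ.filter (fun j => ∃ x ∈ S, c x = j) ⊆ univ.filter (fun j => j ≠ o) := by
    intro j hj
    rw [mem_filter] at hj ⊢
    obtain ⟨_, x, hx, hxj⟩ := hj
    refine ⟨mem_univ _, ?_⟩
    rintro rfl
    exact hS.noto x hx hxj
  have ht1 : tot G (inn c i S) i n ≤ T := by
    refine le_trans ?_ htot
    unfold tot
    rw [cc_inn G hS n (fun x => x) rfl]
    exact sum_le_sum_of_subset_of_nonneg hJ fun j _ _ => ar_nonneg G c n j
  have hl : NoLoop (inn c i S) := no_loop10 hη hη1 hη2 hM ht1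
  have hx : ∃ x, inn c i S x ≠ i := by
    obtain ⟨x, hx⟩ := hS.ne
    refine ⟨x, ?_⟩
    unfold inn
    rw [if_pos hx]
    exact hS.noti x hx
  have hsl := sum_local hη hη1 hM hl hx
  have hk : 0 ≤ kap := by
    unfold kap cT c1
    norm_num
  have hk1 : 0 ≤ kap1 := by
    unfold kap1 c1
    norm_num
  have hs1 : 0 ≤ kap * ∑ d ∈ corners (inn c i S) n i, lam G (inn c i S) n d :=
    mul_nonneg hk (sum_nonneg fun d _ => lam_nonneg G _ n d)
  have hs2 : 0 ≤ kap1 * ∑ d ∈ corners (inn c i S) n i, elen G (inn c i S) d := by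
    refine mul_nonneg hk1 (sum_nonneg fun d _ => ?_)
    unfold elen
    refine sum_nonneg fun j _ => ?_
    unfold Net.w
    positivity
  have hI := cc_inn G hS n (fun x => min 1 x) (by norm_num)
  have hF := cc_fil G hS n hi (fun x => 6 * min 1 x + η * x) (by norm_num)
  have hT := cc_fil G hS n hi (fun x => x) rfl
  have hlt := h.least (fil c i S) (fil_out h.out hS) (fil_conn h.conn hS hne)
    (by
      unfold tot
      linarith) (ncl_fil hS hne)
  have hsplit := per2_split G hS n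
  unfold Phi at hlt
  have e1 : ∑ j ∈ univ.filter (fun j => ∃ x ∈ S, c x = j),
      (6 * min 1 (ar G c n j) + η * ar G c n j) =
      6 * ∑ j ∈ univ.filter (fun j => ∃ x ∈ S, c x = j), min 1 (ar G c n j) +
        η * ∑ j ∈ univ.filter (fun j => ∃ x ∈ S, c x = j), ar G c n j := by
    rw [sum_add_distrib, ← mul_sum, ← mul_sum]
  have e2 : min 1 (ar G c n i) ≤
      min 1 (ar G c n i + ∑ j ∈ univ.filter (fun j => ∃ x ∈ S, c x = j), ar G c n j) :=
    min_le_min le_rfl (by
      have : 0 ≤ ∑ j ∈ univ.filter (fun j => ∃ x ∈ S, c x = j), ar G c n j :=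
        sum_nonneg fun j _ => ar_nonneg G c n j
      linarith)
  rw [e1, mul_add] at hF
  rw [hI] at hsl
  linarith

end Pool.Agent.Helper98.LC3
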