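import Pool.Agent.Helper98.LC3.P.Orbit

/-!
# LC3-P07: the corners of a class without holes form one cycle of `es`

* `es_reach`: `orbit` gives `m` with `(next c)^[m] d = d'`.  Strong induction on `m`: `m = 0`: `k = 0`.  `m ≥ 1`: `emul c d ≤ m` (it is the least `j ≥ 1` for which `(next c)^[j] d` is a corner; `emul_spec`,
  `edge_iter_not` in `Pool/Agent/Helper98/LC/B/Edge.lean`), so `(next c)^[m - emul c d] (es c d) = d'`, `es c d ∈ corners c n i` (`es_mem`).
* `es_card`: `N = card (corners c n i)`.  `es c` is injective on the finite set `corners c n i` and maps it to itself (`es_mem`, `es_bij`, `edge_es_inj'`), and every element is reached from `d`; so `m ↦ (es c)^[m] d` is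
  periodic, its least period is `N` (the elements `(es c)^[m] d`, `m < p`, `p` the least period, are different and are all corners of the class: `Function.minimalPeriod`).
* `corners_eq`: the corners of the class are the `(es c)^[m] d`, `m < N`.
-/

namespace Pool.Agent.Helper98.LC3

open Finset Real Pool.Agent.Helper98.LC

variable {ι : Type} [DecidableEq ι]

private lemma reach_aux {c : V → ι} {o : ι} {n : ℕ} (h : OutBox c o n) {i : ι} {d' : V × Fin 6}
    (hd' : d' ∈ corners c n i) (m : ℕ) : ∀ d ∈ corners c n i, (next c)^[m] d = d' →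
      ∃ k : ℕ, (es c)^[k] d = d' := by
  induction m using Nat.strong_induction_on with
  | _ m ih =>
    intro d hd hm
    rcases Nat.eq_zero_or_pos m with hm0 | hm0
    · rw [hm0] at hm
      exact ⟨0, hm⟩
    · have hs := emul_spec h ((mem_corners h i d).1 hd).1
      have hle : emul c d ≤ m := by
        by_contra hlt
        rw [not_le] at hlt
        refine hs.2.2 m hm0 hlt ?_
        unfold edart
        rw [hm]
        exact ((mem_corners h i d').1 hd').1
      have h1 : (next c)^[m - emul c d] (es c d) = d' := by
        unfold es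
        rw [← Function.iterate_add_apply, Nat.sub_add_cancel hle]
        exact hm
      obtain ⟨k, hk⟩ := ih (m - emul c d) (by omega) (es c d) (es_mem h hd) h1
      exact ⟨k + 1, hk⟩

theorem es_reach {c : V → ι} {o : ι} {n : ℕ} (h : OutBox c o n) (hc : Conn c) {i : ι} (hi : i ≠ o)
    (hco : CoConn c i) {d d' : V × Fin 6} (hd : d ∈ corners c n i) (hd' : d' ∈ corners c n i) :
    ∃ m : ℕ, (es c)^[m] d = d' := by
  have h1 := (mem_corners h i d).1 hd
  have h2 := (mem_corners h i d').1 hd'
  obtain ⟨m, hm⟩ := orbit h hc hi hco h1.1.1 h1.2 h2.1.1 h2.2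
  exact reach_aux h hd' m d hd hm

private lemma iter_mem {c : V → ι} {o : ι} {n : ℕ} (h : OutBox c o n) {i : ι} {d : V × Fin 6}
    (hd : d ∈ corners c n i) (m : ℕ) : (es c)^[m] d ∈ corners c n i := by
  induction m with
  | zero => exact hd
  | succ m ih =>
    rw [Function.iterate_succ_apply']
    exact es_mem h ih

private lemma cyc_aux {c : V → ι} {o : ι} {n : ℕ} (h : OutBox c o n) (hc : Conn c) {i : ι}
    (hi : i ≠ o) (hco : CoConn c i) {d : V × Fin 6} (hd : d ∈ corners c n i) :
    0 < Function.minimalPeriod (es c) d ∧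
    corners c n i = (range (Function.minimalPeriod (es c) d)).image (fun m => (es c)^[m] d) ∧
      Set.InjOn (fun m => (es c)^[m] d) (range (Function.minimalPeriod (es c) d) : Set ℕ) ∧
      (corners c n i).card = Function.minimalPeriod (es c) d := by
  have hpos : 0 < Function.minimalPeriod (es c) d := by
    obtain ⟨m, hm⟩ := es_reach h hc hi hco (es_mem h hd) hd
    exact Function.minimalPeriod_pos_of_mem_periodicPts
      (Function.mk_mem_periodicPts (n := m + 1) (Nat.succ_pos m) hm)
  have heq : corners c n i =
      (range (Function.minimalPeriod (es c) d)).image (fun m => (es c)^[m] d) := by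
    ext x
    rw [mem_image]
    constructor
    · intro hx
      obtain ⟨m, hm⟩ := es_reach h hc hi hco hd hx
      refine ⟨m % Function.minimalPeriod (es c) d, mem_range.2 (Nat.mod_lt _ hpos), ?_⟩
      rw [Function.iterate_mod_minimalPeriod_eq, hm]
    · rintro ⟨m, -, rfl⟩
      exact iter_mem h hd m
  have hinj : Set.InjOn (fun m => (es c)^[m] d)
      (range (Function.minimalPeriod (es c) d) : Set ℕ) := by
    intro a ha b hb hab
    rw [mem_coe, mem_range] at ha hb
    exact Function.iterate_injOn_Iio_minimalPeriod ha hb hab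
  refine ⟨hpos, heq, hinj, ?_⟩
  rw [heq, card_image_of_injOn hinj, card_range]

theorem es_card {c : V → ι} {o : ι} {n : ℕ} (h : OutBox c o n) (hc : Conn c) {i : ι} (hi : i ≠ o)
    (hco : CoConn c i) {d : V × Fin 6} (hd : d ∈ corners c n i) :
    (es c)^[(corners c n i).card] d = d ∧
      ∀ m, 0 < m → m < (corners c n i).card → (es c)^[m] d ≠ d := by
  obtain ⟨-, -, -, hcard⟩ := cyc_aux h hc hi hco hd
  rw [hcard]
  refine ⟨Function.iterate_minimalPeriod, fun m hm hlt he => ?_⟩
  exact Function.not_isPeriodicPt_of_pos_of_lt_minimalPeriod hm.ne' hlt he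

theorem corners_eq {c : V → ι} {o : ι} {n : ℕ} (h : OutBox c o n) (hc : Conn c) {i : ι}
    (hi : i ≠ o) (hco : CoConn c i) {d : V × Fin 6} (hd : d ∈ corners c n i) :
    corners c n i = (range (corners c n i).card).image (fun m => (es c)^[m] d) ∧
      Set.InjOn (fun m => (es c)^[m] d) (range (corners c n i).card : Set ℕ) := by
  obtain ⟨-, heq, hinj, hcard⟩ := cyc_aux h hc hi hco hd
  rw [hcard]
  exact ⟨heq, hinj⟩

end Pool.Agent.Helper98.LC3
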