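import Pool.Agent.Helper98.LC3.P.Def

/-!
# LC3-P01: existence of a global minimiser

The proofs are those of `exists_minimal` in `Pool/Agent/Helper98/LC/C/Minimizer.lean` (copy the private lemmas, which are private there).
* `exists_gmin`: `c` minimises `Phi` among the finitely many admissible labellings and has the least `ncl` among the minimisers (`key` in that proof).
* `gmin_minimal`: apply `least` to `merge c i j` (`i, j ≠ o`) and to `merge c o i`: second half of that proof (`ht'`, `classes_merge` give `ncl (merge ..) < ncl c`; `ncl` there is the same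
  expression as here, use `classes_merge` in the same way).
-/

namespace Pool.Agent.Helper98.LC3

open Finset Real Pool.Agent.Helper98.LC

variable {ι : Type} [DecidableEq ι]

private lemma h86_min_finite [Fintype ι] (o : ι) (n : ℕ) : {c : V → ι | OutBox c o n}.Finite := by
  classical
  have hi : Set.InjOn (fun (c : V → ι) => fun (x : box n) => c x) {c : V → ι | OutBox c o n} := by
    intro c hc c' hc' h
    funext x
    by_cases hx : x ∈ box n
    · exact congrFun h ⟨x, hx⟩
    · rw [hc x hx, hc' x hx]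
  exact Set.Finite.of_finite_image (Set.toFinite _) hi

private lemma h86_min_touch_symm {c : V → ι} {i j : ι} (h : Touch c i j) : Touch c j i := by
  obtain ⟨d, h0, h1, h2⟩ := h
  exact ⟨rev d, (isCut_rev c d).mpr h0, h2, by rw [tip_rev]; exact h1⟩

private lemma h86_min_sum_inner [Fintype ι] (G : Net) (c : V → ι) (o : ι) (n : ℕ) {i j : ι}
    (hij : i ≠ j) (hi : i ≠ o) (hj : j ≠ o) (f : ℝ → ℝ) :
    ∑ k ∈ univ.filter (fun k => k ≠ o), f (ar G (merge c i j) n k) =
      ∑ k ∈ univ.filter (fun k => k ≠ o), f (ar G c n k) + f (ar G c n i + ar G c n j) + f 0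
        - f (ar G c n i) - f (ar G c n j) := by
  have hmi : i ∈ univ.filter (fun k => k ≠ o) := by simp [hi]
  have hmj : j ∈ (univ.filter (fun k => k ≠ o)).erase i := by simp [hj, hij.symm]
  rw [← add_sum_erase _ _ hmi, ← add_sum_erase _ _ hmj, ← add_sum_erase _ (fun k => f (ar G c n k)) hmi,
    ← add_sum_erase _ (fun k => f (ar G c n k)) hmj, ar_merge_left G c n hij, ar_merge_right G c n hij]
  have h1 : ∑ k ∈ ((univ.filter (fun k => k ≠ o)).erase i).erase j, f (ar G (merge c i j) n k) =
      ∑ k ∈ ((univ.filter (fun k => k ≠ o)).erase i).erase j, f (ar G c n k) := by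
    refine sum_congr rfl fun k hk => ?_
    rw [mem_erase, mem_erase] at hk
    rw [ar_merge_other G c n hk.2.1 hk.1]
  rw [h1]
  ring

private lemma h86_min_sum_outer [Fintype ι] (G : Net) (c : V → ι) (o : ι) (n : ℕ) {i : ι}
    (hi : i ≠ o) (f : ℝ → ℝ) :
    ∑ k ∈ univ.filter (fun k => k ≠ o), f (ar G (merge c o i) n k) =
      ∑ k ∈ univ.filter (fun k => k ≠ o), f (ar G c n k) + f 0 - f (ar G c n i) := by
  have hmi : i ∈ univ.filter (fun k => k ≠ o) := by simp [hi]
  rw [← add_sum_erase _ _ hmi, ← add_sum_erase _ (fun k => f (ar G c n k)) hmi,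
    ar_merge_right G c n hi.symm]
  have h1 : ∑ k ∈ (univ.filter (fun k => k ≠ o)).erase i, f (ar G (merge c o i) n k) =
      ∑ k ∈ (univ.filter (fun k => k ≠ o)).erase i, f (ar G c n k) := by
    refine sum_congr rfl fun k hk => ?_
    rw [mem_erase, mem_filter] at hk
    rw [ar_merge_other G c n hk.2.2 hk.1]
  rw [h1]
  ring

theorem exists_gmin [Fintype ι] (G : Net) {c₀ : V → ι} {o : ι} {n : ℕ} (h : OutBox c₀ o n)
    (hc : Conn c₀) (η : ℝ) :
    ∃ c : V → ι, GMin G c o n η ∧ Phi G c o n η ≤ Phi G c₀ o n η ∧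
      tot G c o n ≤ tot G c₀ o n := by
  have hf : {c : V → ι | OutBox c o n ∧ Conn c ∧ tot G c o n ≤ tot G c₀ o n}.Finite :=
    (h86_min_finite o n).subset fun c hc => hc.1
  obtain ⟨c₁, hc₁, hm₁⟩ := Set.exists_min_image _ (fun c => Phi G c o n η) hf ⟨c₀, h, hc, le_rfl⟩
  have hf2 : {c : V → ι | (OutBox c o n ∧ Conn c ∧ tot G c o n ≤ tot G c₀ o n) ∧
      Phi G c o n η = Phi G c₁ o n η}.Finite := hf.subset fun c hc => hc.1
  obtain ⟨c, hcS, hm⟩ := Set.exists_min_image _ (fun c => ncl c) hf2 ⟨c₁, hc₁, rfl⟩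
  obtain ⟨⟨hout, hconn, htot⟩, hphi⟩ := hcS
  refine ⟨c, ⟨hout, hconn, ?_⟩, ?_, htot⟩
  · intro c' h1 h2 h3 h4
    have h5 : Phi G c₁ o n η ≤ Phi G c' o n η := hm₁ c' ⟨h1, h2, h3.trans htot⟩
    rw [hphi]
    refine lt_of_le_of_ne h5 fun h6 => ?_
    have h7 := hm c' ⟨⟨h1, h2, h3.trans htot⟩, h6.symm⟩
    exact absurd h4 (not_lt.mpr h7)
  · rw [hphi]
    exact hm₁ c₀ ⟨h, hc, le_rfl⟩

theorem gmin_minimal [Fintype ι] {G : Net} {c : V → ι} {o : ι} {n : ℕ} {η : ℝ}
    (h : GMin G c o n η) : Minimal G c o n η := by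
  have hout := h.out
  have hconn := h.conn
  refine ⟨hout, hconn, ?_, ?_⟩
  · intro i j hi hj ht
    have hij : i ≠ j := by
      obtain ⟨d, h0, h1, h2⟩ := ht
      intro e
      exact h0 (h1.trans (e.trans h2.symm))
    have ht' : tot G (merge c i j) o n = tot G c o n := by
      have := h86_min_sum_inner G c o n hij hi hj (fun a => a)
      unfold tot
      rw [this]
      ring
    have h1 := h.least (merge c i j) (merge_out hout hj) (merge_conn hconn hij ht) ht'.le
      (by unfold ncl; exact classes_merge hij ht)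
    unfold Phi at h1
    rw [per2_merge G hout hij hj,
      h86_min_sum_inner G c o n hij hi hj (fun a => 6 * min 1 a + η * a)] at h1
    have h0 : min (1 : ℝ) 0 = 0 := min_eq_right zero_le_one
    rw [h0] at h1
    linarith
  · intro i hi ht
    have ht2 := h86_min_touch_symm ht
    have ht' : tot G (merge c o i) o n ≤ tot G c o n := by
      have := h86_min_sum_outer G c o n hi (fun a => a)
      unfold tot
      rw [this]
      have := ar_nonneg G c n i
      linarith
    have h1 := h.least (merge c o i) (merge_out hout hi) (merge_conn hconn hi.symm ht2) ht'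
      (by unfold ncl; exact classes_merge hi.symm ht2)
    unfold Phi at h1
    rw [per2_merge G hout hi.symm hi,
      h86_min_sum_outer G c o n hi (fun a => 6 * min 1 a + η * a), cut_symm G hout o i] at h1
    have h0 : min (1 : ℝ) 0 = 0 := min_eq_right zero_le_one
    rw [h0] at h1
    linarith

end Pool.Agent.Helper98.LC3
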