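import Pool.Agent.Helper98.LC.F.Model

/-!
# Project LC3: global minimisers, holes
-/

namespace Pool.Agent.Helper98.LC3

open Finset Real Pool.Agent.Helper98.LC

variable {ι : Type} [DecidableEq ι]

open Classical in
/-- the number of nonempty classes -/
noncomputable def ncl [Fintype ι] (c : V → ι) : ℕ := (univ.filter fun k => ∃ x, c x = k).card

/-- A labelling with connected classes which minimises `Phi` among the labellings with connected
classes and no larger total area, and which has the least number of classes among the minimisers. -/
structure GMin [Fintype ι] (G : Net) (c : V → ι) (o : ι) (n : ℕ) (η : ℝ) : Prop where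
  out : OutBox c o n
  conn : Conn c
  least : ∀ c' : V → ι, OutBox c' o n → Conn c' → tot G c' o n ≤ tot G c o n →
    ncl c' < ncl c → Phi G c o n η < Phi G c' o n η

/-- a step in the complement of the class `i` -/
def Off (c : V → ι) (i : ι) (x y : V) : Prop := c x ≠ i ∧ c y ≠ i ∧ ∃ k, y = x + dir k

/-- the complement of the class `i` is connected -/
def CoConn (c : V → ι) (i : ι) : Prop :=
  ∀ x y, c x ≠ i → c y ≠ i → Relation.ReflTransGen (Off c i) x y

/-- `S` is a component of the complement of the class `i` which does not meet the class `o`. -/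
structure IsHole (c : V → ι) (o i : ι) (S : Set V) : Prop where
  ne : S.Nonempty
  noti : ∀ x ∈ S, c x ≠ i
  noto : ∀ x ∈ S, c x ≠ o
  step : ∀ x ∈ S, ∀ k, x + dir k ∈ S ∨ c (x + dir k) = i
  cls : ∀ x ∈ S, ∀ y, c y = c x → y ∈ S
  conn : ∀ x ∈ S, ∀ y ∈ S, Relation.ReflTransGen (Off c i) x y

open Classical in
/-- keep the labels in `S`, everything else gets the label `i` -/
noncomputable def inn (c : V → ι) (i : ι) (S : Set V) : V → ι := fun x => if x ∈ S then c x else i

open Classical in
/-- `S` gets the label `i` -/
noncomputable def fil (c : V → ι) (i : ι) (S : Set V) : V → ι := fun x => if x ∈ S then i else c x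

end Pool.Agent.Helper98.LC3
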