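import Pool.Agent.Helper98.LC3.P.Def

/-!
# LC3-P02: holes

Grid connectivity: if `P` is true at one vertex and false at another one, there are `x, k` with `P x` and `¬ P (x + dir k)`
(from any vertex one reaches every vertex by steps `dir 0, dir 2, dir 3, dir 5`; compare `reach` in `Pool/Agent/Helper98/LC/B/LoopSet.lean`); more precisely (`grid_exit`)
for a set `P` with `x ∈ P`, `y ∉ P` and any `x, y`.

`exists_hole`: let `a, b` be vertices not in class `i` and not connected in the complement of class `i`.  Let `w` be a vertex outside `box n` (`c w = o ≠ i`).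
At least one of `a, b` is not connected to `w` (`Off` is symmetric: `dir (k + 3) = - dir k`), call it `a`.  `S = {x | ReflTransGen (Off c i) a x}`.
`ne`: `a ∈ S`.  `noti`: by induction on the path (the last step gives `c x ≠ i`; for the empty path `x = a`).  `step`: if `c (x + dir k) ≠ i` then `Off c i x (x + dir k)`.
`cls`: `c y = c x ≠ i` and `Conn c` gives a path of `Adj1 c` steps from `x` to `y`; every vertex on it has the label `c x ≠ i`, so it is a path of `Off` steps.
`noto`: if `x ∈ S` has `c x = o` then `w ∈ S` by `cls`, contradiction.  `conn`: symmetry and transitivity.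

`inn_out`: `x ∉ box n` has `c x = o`, so `x ∉ S` (`noto`), `inn x = i`.   `fil_out`: `x ∉ box n`: `x ∉ S`, `fil x = c x = o`.
`inn_conn`: let `inn x = inn y`.  If `x ∈ S`: `inn x = c x ≠ i` (`noti`), so `y ∈ S`, `c y = c x`; the `Adj1 c` path from `x` to `y` stays in the class, which is contained in `S` (`cls`).
  If `x ∉ S` then `inn x = i` and `y ∉ S` (`noti`).  Claim: from every `x ∉ S` there is a path of `Adj1 (inn c i S)` steps (i.e. of steps in the complement of `S`) to a vertex `x'` with `c x' = i`;
  then `x'` and `y'` are connected in class `i` (`Conn c`; class `i` is disjoint from `S`).  Claim: if `c x = i`, take `x' = x`.  Otherwise `P = {z | ReflTransGen (Off c i) x z}` contains `x`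
  and does not meet `S` (a vertex in `S ∩ P` would give `x ∈ S` by `step` applied along the reversed path); `P` does not contain a vertex of `S ≠ ∅`, so by `grid_exit` there are `z ∈ P`, `k` with `z + dir k ∉ P`;
  `c z ≠ i`; if `c (z + dir k) ≠ i` then `z + dir k ∈ P`, contradiction; so `c (z + dir k) = i`, `x' = z + dir k`.  All vertices of the `Off` path from `x` to `z` are in `P`, so not in `S`.
`fil_conn`: let `fil x = fil y`.  If `fil x = j ≠ i`: `x ∉ S`, `y ∉ S`, `c x = c y = j`; the `Adj1 c` path stays in the class `j`, which is disjoint from `S` (`cls`: a common vertex would give `x ∈ S`).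
  If `fil x = i`: `x ∈ S` or `c x = i`.  Every vertex of `S` is connected by steps in `S` to a vertex `z ∈ S` with a neighbour in class `i`: `grid_exit` for `P = S` (class `i` is not empty — by assumption
  `hi : ∃ x, c x = i` — and disjoint from `S`) gives `z ∈ S`, `z + dir k ∉ S`, so `c (z + dir k) = i` by `step`; the `Off` path from `x ∈ S` to `z` (`conn`) stays in `S` (`step`/closedness: an `Off` step from a
  vertex of `S` stays in `S`).
`ncl_fil`: the labels of `fil` are labels of `c` (label `i` exists), and the label `c x`, `x ∈ S`, is not a label of `fil` (`cls`, `noti`).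
-/

namespace Pool.Agent.Helper98.LC3

open Finset Real Pool.Agent.Helper98.LC

variable {ι : Type} [DecidableEq ι]

omit [DecidableEq ι] in
private theorem step_back (x : V) (k : Fin 6) : x = (x + dir k) + dir (k + 3) := by
  rw [dir_add3, add_assoc, add_neg_cancel, add_zero]

private theorem reach0 (P : V → Prop) (hstep : ∀ x k, P x → P (x + dir k)) (x₀ : V) (h₀ : P x₀)
    (x : V) : P x := by
  have h1 : ∀ (y : V) (a : ℤ), P y → P (y.1 + a, y.2) := by
    intro y a hy
    induction a using Int.induction_on with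
    | zero => simpa using hy
    | succ k ih =>
      have := hstep _ 0 ih
      have e : ((y.1 + (k : ℤ), y.2) : V) + dir 0 = (y.1 + ((k : ℤ) + 1), y.2) := by
        ext
        · simp [dir]; ring
        · simp [dir]
      rwa [e] at this
    | pred k ih =>
      have := hstep _ 3 ih
      have e : ((y.1 + (-(k : ℤ)), y.2) : V) + dir 3 = (y.1 + (-(k : ℤ) - 1), y.2) := by
        ext
        · simp [dir]; ring
        · simp [dir]
      rwa [e] at this
  have h2 : ∀ (y : V) (a : ℤ), P y → P (y.1, y.2 + a) := by
    intro y a hy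
    induction a using Int.induction_on with
    | zero => simpa using hy
    | succ k ih =>
      have := hstep _ 2 ih
      have e : ((y.1, y.2 + (k : ℤ)) : V) + dir 2 = (y.1, y.2 + ((k : ℤ) + 1)) := by
        ext
        · simp [dir]
        · simp [dir]; ring
      rwa [e] at this
    | pred k ih =>
      have := hstep _ 5 ih
      have e : ((y.1, y.2 + (-(k : ℤ))) : V) + dir 5 = (y.1, y.2 + (-(k : ℤ) - 1)) := by
        ext
        · simp [dir]
        · simp [dir]; ring
      rwa [e] at this
  have h3 := h2 _ (x.2 - x₀.2) (h1 x₀ (x.1 - x₀.1) h₀)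
  have e : (((x₀.1 + (x.1 - x₀.1), x₀.2) : V).1, ((x₀.1 + (x.1 - x₀.1), x₀.2) : V).2 + (x.2 - x₀.2))
      = x := by
    ext
    · simp
    · simp
  rwa [e] at h3

omit [DecidableEq ι] in
theorem grid_exit (P : V → Prop) {x y : V} (hx : P x) (hy : ¬ P y) : ∃ z k, P z ∧ ¬ P (z + dir k) := by
  by_contra hcon
  push Not at hcon
  exact hy (reach0 P (fun z k hz => hcon z k hz) x hx y)

omit [DecidableEq ι] in
private theorem off_symm {c : V → ι} {i : ι} {x y : V} (h : Off c i x y) : Off c i y x := by
  obtain ⟨h1, h2, k, rfl⟩ := h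
  exact ⟨h2, h1, k + 3, step_back x k⟩

omit [DecidableEq ι] in
private theorem adj_symm {c : V → ι} {x y : V} (h : Adj1 c x y) : Adj1 c y x := by
  obtain ⟨h1, k, rfl⟩ := h
  exact ⟨h1.symm, k + 3, step_back x k⟩

omit [DecidableEq ι] in
private theorem off_rsymm {c : V → ι} {i : ι} {x y : V}
    (h : Relation.ReflTransGen (Off c i) x y) : Relation.ReflTransGen (Off c i) y x := by
  induction h with
  | refl => exact Relation.ReflTransGen.refl
  | tail _ hs ih => exact Relation.ReflTransGen.head (off_symm hs) ih

omit [DecidableEq ι] in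
private theorem adj_rsymm {c : V → ι} {x y : V}
    (h : Relation.ReflTransGen (Adj1 c) x y) : Relation.ReflTransGen (Adj1 c) y x := by
  induction h with
  | refl => exact Relation.ReflTransGen.refl
  | tail _ hs ih => exact Relation.ReflTransGen.head (adj_symm hs) ih

omit [DecidableEq ι] in
private theorem off_of_adj {c : V → ι} {i : ι} {x y : V} (hx : c x ≠ i)
    (h : Relation.ReflTransGen (Adj1 c) x y) :
    Relation.ReflTransGen (Off c i) x y ∧ c y = c x := by
  induction h with
  | refl => exact ⟨Relation.ReflTransGen.refl, rfl⟩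
  | tail _ hs ih =>
    obtain ⟨h1, k, rfl⟩ := hs
    have h2 := h1.symm.trans ih.2
    exact ⟨ih.1.tail ⟨by rw [ih.2]; exact hx, by rw [h2]; exact hx, k, rfl⟩, h2⟩

omit [DecidableEq ι] in
private theorem off_ne {c : V → ι} {i : ι} {x y : V} (hx : c x ≠ i)
    (h : Relation.ReflTransGen (Off c i) x y) : c y ≠ i := by
  induction h with
  | refl => exact hx
  | tail _ hs _ => exact hs.2.1

omit [DecidableEq ι] in
private theorem adj_map {c f : V → ι} {x y : V} {m : ι} (h : Relation.ReflTransGen (Adj1 c) x y)
    (hf : ∀ z, c z = c x → f z = m) : Relation.ReflTransGen (Adj1 f) x y := by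
  have key : Relation.ReflTransGen (Adj1 f) x y ∧ c y = c x := by
    induction h with
    | refl => exact ⟨Relation.ReflTransGen.refl, rfl⟩
    | tail _ hs ih =>
      obtain ⟨h1, k, rfl⟩ := hs
      have h2 := h1.symm.trans ih.2
      exact ⟨ih.1.tail ⟨(hf _ ih.2).trans (hf _ h2).symm, k, rfl⟩, h2⟩
  exact key.1

omit [DecidableEq ι] in
private theorem off_map {c f : V → ι} {i m : ι} {T : Set V} {x y : V}
    (hT : ∀ u v, Off c i u v → u ∈ T → v ∈ T) (hf : ∀ u ∈ T, f u = m) (hx : x ∈ T)
    (h : Relation.ReflTransGen (Off c i) x y) :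
    Relation.ReflTransGen (Adj1 f) x y ∧ y ∈ T := by
  induction h with
  | refl => exact ⟨Relation.ReflTransGen.refl, hx⟩
  | tail _ hs ih =>
    have h3 := hT _ _ hs ih.2
    obtain ⟨h1, h2, k, rfl⟩ := hs
    exact ⟨ih.1.tail ⟨(hf _ ih.2).trans (hf _ h3).symm, k, rfl⟩, h3⟩

omit [DecidableEq ι] in
private theorem hole_step {c : V → ι} {o i : ι} {S : Set V} (hS : IsHole c o i S) {x y : V}
    (h : Off c i x y) (hx : x ∈ S) : y ∈ S := by
  obtain ⟨h1, h2, k, rfl⟩ := h
  rcases hS.step _ hx k with h3 | h3
  · exact h3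
  · exact absurd h3 h2

omit [DecidableEq ι] in
private theorem hole_closed {c : V → ι} {o i : ι} {S : Set V} (hS : IsHole c o i S) {x y : V}
    (hx : x ∈ S) (h : Relation.ReflTransGen (Off c i) x y) : y ∈ S := by
  induction h with
  | refl => exact hx
  | tail _ hs ih => exact hole_step hS hs ih

theorem exists_hole {c : V → ι} {o i : ι} {n : ℕ} (h : OutBox c o n) (hc : Conn c) (hi : i ≠ o)
    (hn : ¬ CoConn c i) : ∃ S, IsHole c o i S := by
  set w : V := ((n : ℤ) + 1, 0) with hw
  have hwn : w ∉ box n := by
    simp [LC.box, hw]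
  have hwo : c w = o := h w hwn
  have hex : ∃ a, c a ≠ i ∧ ¬ Relation.ReflTransGen (Off c i) a w := by
    by_contra hcon
    push Not at hcon
    exact hn fun x y hx hy => (hcon x hx).trans (off_rsymm (hcon y hy))
  obtain ⟨a, ha, haw⟩ := hex
  have hcls : ∀ x, Relation.ReflTransGen (Off c i) a x → ∀ y, c y = c x →
      Relation.ReflTransGen (Off c i) a y := by
    intro x hx y hy
    exact hx.trans (off_of_adj (off_ne ha hx) (hc x y hy.symm)).1
  refine ⟨{x | Relation.ReflTransGen (Off c i) a x}, ⟨a, Relation.ReflTransGen.refl⟩,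
    fun x hx => off_ne ha hx, ?_, ?_, fun x hx y hy => hcls x hx y hy,
    fun x hx y hy => (off_rsymm hx).trans hy⟩
  · intro x hx hxo
    exact haw (hcls x hx w (hwo.trans hxo.symm))
  · intro x hx k
    by_cases hk : c (x + dir k) = i
    · exact Or.inr hk
    · exact Or.inl (Relation.ReflTransGen.tail hx ⟨off_ne ha hx, hk, k, rfl⟩)

theorem inn_out {c : V → ι} {o i : ι} {n : ℕ} {S : Set V} (h : OutBox c o n)
    (hS : IsHole c o i S) : OutBox (inn c i S) i n := by
  intro x hx
  have h1 : x ∉ S := fun h2 => hS.noto x h2 (h x hx)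
  simp [inn, h1]

theorem fil_out {c : V → ι} {o i : ι} {n : ℕ} {S : Set V} (h : OutBox c o n)
    (hS : IsHole c o i S) : OutBox (fil c i S) o n := by
  intro x hx
  have h1 : x ∉ S := fun h2 => hS.noto x h2 (h x hx)
  simp [fil, h1, h x hx]

omit [DecidableEq ι] in
private theorem inn_in {c : V → ι} {i : ι} {S : Set V} {x : V} (hx : x ∈ S) :
    inn c i S x = c x := by
  simp [inn, hx]

omit [DecidableEq ι] in
private theorem inn_off {c : V → ι} {i : ι} {S : Set V} {x : V} (hx : x ∉ S) :
    inn c i S x = i := by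
  simp [inn, hx]

omit [DecidableEq ι] in
private theorem fil_in {c : V → ι} {i : ι} {S : Set V} {x : V} (hx : x ∈ S) :
    fil c i S x = i := by
  simp [fil, hx]

omit [DecidableEq ι] in
private theorem fil_off {c : V → ι} {i : ι} {S : Set V} {x : V} (hx : x ∉ S) :
    fil c i S x = c x := by
  simp [fil, hx]

theorem inn_conn {c : V → ι} {o i : ι} {S : Set V} (hc : Conn c)
    (hS : IsHole c o i S) : Conn (inn c i S) := by
  have hnot : ∀ z, c z = i → z ∉ S := fun z hz hzS => hS.noti z hzS hz
  have claim : ∀ x, x ∉ S → ∃ x', c x' = i ∧ Relation.ReflTransGen (Adj1 (inn c i S)) x x' := by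
    intro x hx
    by_cases hxi : c x = i
    · exact ⟨x, hxi, Relation.ReflTransGen.refl⟩
    · obtain ⟨s, hs⟩ := hS.ne
      have hPs : ¬ Relation.ReflTransGen (Off c i) x s := fun h1 =>
        hx (hole_closed hS hs (off_rsymm h1))
      obtain ⟨z, k, hz, hzk⟩ := grid_exit (fun z => Relation.ReflTransGen (Off c i) x z)
        (x := x) (y := s) Relation.ReflTransGen.refl hPs
      have hzi := off_ne hxi hz
      have hki : c (z + dir k) = i := by
        by_contra hcon
        exact hzk (Relation.ReflTransGen.tail hz ⟨hzi, hcon, k, rfl⟩)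
      have h1 := off_map (f := inn c i S) (m := i) (T := Sᶜ)
        (fun u v huv hu hv => hu (hole_step hS (off_symm huv) hv))
        (fun u hu => inn_off hu) hx hz
      exact ⟨z + dir k, hki, h1.1.tail ⟨(inn_off h1.2).trans (inn_off (hnot _ hki)).symm, k, rfl⟩⟩
  intro x y hxy
  by_cases hx : x ∈ S
  · by_cases hy : y ∈ S
    · rw [inn_in hx, inn_in hy] at hxy
      exact adj_map (hc x y hxy) fun z hz => (inn_in (hS.cls x hx z hz)).trans hz
    · rw [inn_in hx, inn_off hy] at hxy
      exact absurd hxy (hS.noti x hx)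
  · by_cases hy : y ∈ S
    · rw [inn_in hy, inn_off hx] at hxy
      exact absurd hxy.symm (hS.noti y hy)
    · obtain ⟨x', hx', h1⟩ := claim x hx
      obtain ⟨y', hy', h2⟩ := claim y hy
      refine (h1.trans ?_).trans (adj_rsymm h2)
      exact adj_map (hc x' y' (hx'.trans hy'.symm)) fun z hz => inn_off (hnot z (hz.trans hx'))

theorem fil_conn {c : V → ι} {o i : ι} {S : Set V} (hc : Conn c)
    (hS : IsHole c o i S) (hi : ∃ x, c x = i) : Conn (fil c i S) := by
  have hnot : ∀ z, c z = i → z ∉ S := fun z hz hzS => hS.noti z hzS hz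
  have claim : ∀ x, fil c i S x = i →
      ∃ x', c x' = i ∧ Relation.ReflTransGen (Adj1 (fil c i S)) x x' := by
    intro x hx
    by_cases hxS : x ∈ S
    · obtain ⟨x₀, hx₀⟩ := hi
      obtain ⟨z, k, hz, hzk⟩ := grid_exit (fun z => z ∈ S) hxS (hnot x₀ hx₀)
      have hki : c (z + dir k) = i := by
        rcases hS.step z hz k with h1 | h1
        · exact absurd h1 hzk
        · exact h1
      have h1 := off_map (f := fil c i S) (m := i) (T := S)
        (fun u v huv hu => hole_step hS huv hu)
        (fun u hu => fil_in hu) hxS (hS.conn x hxS z hz)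
      exact ⟨z + dir k, hki, h1.1.tail
        ⟨(fil_in hz).trans ((fil_off hzk).trans hki).symm, k, rfl⟩⟩
    · rw [fil_off hxS] at hx
      exact ⟨x, hx, Relation.ReflTransGen.refl⟩
  intro x y hxy
  by_cases hfx : fil c i S x = i
  · obtain ⟨x', hx', h1⟩ := claim x hfx
    obtain ⟨y', hy', h2⟩ := claim y (hxy.symm.trans hfx)
    refine (h1.trans ?_).trans (adj_rsymm h2)
    exact adj_map (hc x' y' (hx'.trans hy'.symm)) fun z hz =>
      (fil_off (hnot z (hz.trans hx'))).trans (hz.trans hx')
  · have hx : x ∉ S := fun h1 => hfx (fil_in h1)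
    have hy : y ∉ S := fun h1 => hfx (hxy.trans (fil_in h1))
    have hxy' := hxy
    rw [fil_off hx, fil_off hy] at hxy'
    exact adj_map (hc x y hxy') fun z hz =>
      (fil_off fun h1 => hx (hS.cls z h1 x hz.symm)).trans hz

theorem ncl_fil [Fintype ι] {c : V → ι} {o i : ι} {S : Set V} (hS : IsHole c o i S)
    (hi : ∃ x, c x = i) : ncl (fil c i S) < ncl c := by
  obtain ⟨s, hs⟩ := hS.ne
  unfold ncl
  refine Finset.card_lt_card ?_
  rw [Finset.ssubset_iff_of_subset]
  · refine ⟨c s, ?_, ?_⟩
    · simp only [mem_filter, mem_univ, true_and]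
      exact ⟨s, rfl⟩
    · simp only [mem_filter, mem_univ, true_and]
      rintro ⟨x, hx⟩
      by_cases hxS : x ∈ S
      · rw [fil_in hxS] at hx
        exact hS.noti s hs hx.symm
      · have h1 := hx
        rw [fil_off hxS] at h1
        exact hxS (hS.cls s hs x h1)
  · intro k
    simp only [mem_filter, mem_univ, true_and]
    rintro ⟨x, hx⟩
    by_cases hxS : x ∈ S
    · rw [fil_in hxS] at hx
      rw [← hx]
      exact hi
    · rw [fil_off hxS] at hx
      exact ⟨x, hx⟩

end Pool.Agent.Helper98.LC3
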