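import Pool.Agent.Helper98.LC3.P.Def

/-!
# LC3-P06: the boundary of a class without holes is one orbit

`b x = decide (c x = i)`, a labelling by `Bool`.  `OutBox b false n` (`i ≠ o`).  For a dart `d` with `c d.1 = i`, cut for `c` (so also for `b`): `next b d = next c d` (`next` only asks whether
`c (third d) = c d.1`), and by induction `(next b)^[m] d = (next c)^[m] d` (`edart_class`, `class_next`: the starting vertex stays in class `i`).
No dart is a corner for `b` (only two labels).  `loop_potential` (file `Pool/Agent/Helper98/LC/B/LoopF.lean`) for `b`, `d₀ = d` only gives a function `f` with `f (tip d) = f d.1 + 1` and the three alternatives;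
the information that `f` does not change across darts outside of the orbit is needed too, so repeat its proof: `ψ e = 1` if `e` is in the orbit `Γ` of `d` under `next b`, `-1` if `rev e ∈ Γ`, `0` otherwise, is closed and
antisymmetric, `exact_cochain` gives `f` with `f (x + dir k) - f x = ψ (x, k)`.
`f` is constant on the class `i` (`Conn c`: along an `Adj1` step inside the class the dart is not cut for `b`, `ψ = 0`) and on its complement (`CoConn`: an `Off` step is not cut for `b`).  With `f = u` on class `i`, the dart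
`d ∈ Γ` gives `f = u + 1` on the complement.  If `d'` is a cut dart starting in class `i` and `d' ∉ Γ`: `rev d' ∉ Γ` (it starts outside of class `i`), so `ψ d' = 0` and `u = u + 1`, contradiction.
-/

namespace Pool.Agent.Helper98.LC3

open Finset Real Pool.Agent.Helper98.LC

variable {ι : Type} [DecidableEq ι]

private theorem ob_a (x : V) (k : Fin 6) : x + dir k + dir (k + 2) = x + dir (k + 1) := by
  rw [add_assoc]; congr 1; revert k; decide

private theorem ob_b (x : V) (k : Fin 6) : x + dir (k + 1) + dir (k + 4) = x := by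
  have : dir (k + 1) + dir (k + 4) = 0 := by revert k; decide
  rw [add_assoc, this, add_zero]

/-- rotation of a triangle -/
private def obrot (d : V × Fin 6) : V × Fin 6 := (tip d, d.2 + 2)

private theorem obrot2 (x : V) (k : Fin 6) : obrot (obrot (x, k)) = (x + dir (k + 1), k + 4) := by
  have h : k + 2 + 2 = k + 4 := by revert k; decide
  simp only [obrot, tip, ob_a, h]

private theorem obrot3 (d : V × Fin 6) : obrot (obrot (obrot d)) = d := by
  obtain ⟨x, k⟩ := d
  have h : k + 4 + 2 = k := by revert k; decide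
  have h2 : obrot (obrot (obrot (x, k))) = obrot (x + dir (k + 1), k + 4) := congrArg obrot (obrot2 x k)
  rw [h2]
  simp only [obrot, tip, ob_b, h]

private theorem ob_rev_rot (x : V) (k : Fin 6) : rev (obrot (x, k)) = (x + dir (k + 1), k - 1) := by
  have h : k + 2 + 3 = k - 1 := by revert k; decide
  simp only [obrot, rev, tip, ob_a, h]

private theorem ob_rev_rot2 (x : V) (k : Fin 6) : rev (obrot (obrot (x, k))) = (x, k + 1) := by
  have h : k + 4 + 3 = k + 1 := by revert k; decide
  rw [obrot2]
  simp only [rev, ob_b, h]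

private theorem ob_tip_rot (x : V) (k : Fin 6) : tip (obrot (x, k)) = x + dir (k + 1) := by
  simp only [obrot, tip, ob_a]

private theorem ob_tip_rot2 (x : V) (k : Fin 6) : tip (obrot (obrot (x, k))) = x := by
  rw [obrot2]
  simp only [tip, ob_b]

/-- the orbit -/
private def ObGam (c : V → ι) (d₀ : V × Fin 6) : Set (V × Fin 6) := {d | ∃ m, (next c)^[m] d₀ = d}

private theorem obgam_class {c : V → ι} {d₀ d : V × Fin 6} (hd : d ∈ ObGam c d₀) : c d.1 = c d₀.1 := by
  obtain ⟨m, rfl⟩ := hd
  exact edart_class c d₀ m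

private theorem obgam_cut {c : V → ι} {d₀ d : V × Fin 6} (hcut : IsCut c d₀) (hd : d ∈ ObGam c d₀) :
    IsCut c d := by
  obtain ⟨m, rfl⟩ := hd
  exact edge_iter_cut hcut m

private theorem obgam_tip {c : V → ι} {d₀ d : V × Fin 6} (hcut : IsCut c d₀)
    (hloop : ∀ m, ¬ IsCorner c ((next c)^[m] d₀)) (hd : d ∈ ObGam c d₀) :
    c (tip d) = c (tip d₀) := by
  obtain ⟨m, rfl⟩ := hd
  induction m with
  | zero => rfl
  | succ m ih =>
    rw [Function.iterate_succ_apply', class_tip_next c (edge_iter_cut hcut m) (hloop m), ih]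

private theorem obgam_next {c : V → ι} {d₀ d : V × Fin 6} (hd : d ∈ ObGam c d₀) :
    next c d ∈ ObGam c d₀ := by
  obtain ⟨m, rfl⟩ := hd
  exact ⟨m + 1, Function.iterate_succ_apply' _ _ _⟩

private theorem obgam_prev {c : V → ι} {o : ι} {n : ℕ} (h : OutBox c o n) {d₀ d : V × Fin 6}
    (hcut : IsCut c d₀) (hd : d ∈ ObGam c d₀) : prev c d ∈ ObGam c d₀ := by
  have key : ∀ m, prev c ((next c)^[m + 1] d₀) ∈ ObGam c d₀ := fun m => by
    rw [Function.iterate_succ_apply', prev_next c (edge_iter_cut hcut m)]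
    exact ⟨m, rfl⟩
  obtain ⟨m, rfl⟩ := hd
  cases m with
  | zero =>
    obtain ⟨p, hp, hper⟩ := edge_period h hcut
    obtain ⟨q, rfl⟩ := Nat.exists_eq_add_of_le' hp
    have := key q
    rw [hper] at this
    exact this
  | succ m => exact key m

private theorem obgam_not_both {c : V → ι} {d₀ d : V × Fin 6} (hcut : IsCut c d₀)
    (hloop : ∀ m, ¬ IsCorner c ((next c)^[m] d₀)) (hd : d ∈ ObGam c d₀) :
    rev d ∉ ObGam c d₀ := by
  intro hr
  have h1 : c (tip d) = c d₀.1 := obgam_class hr
  have h2 := obgam_tip hcut hloop hd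
  exact hcut (h1.symm.trans h2)

private theorem ob_pot {c : V → ι} {o : ι} {n : ℕ} (h : OutBox c o n) {d₀ : V × Fin 6}
    (hcut : IsCut c d₀) (hloop : ∀ m, ¬ IsCorner c ((next c)^[m] d₀)) :
    ∃ f : V → ℤ, f (tip d₀) = f d₀.1 + 1 ∧
      ∀ d : V × Fin 6, d ∉ ObGam c d₀ → rev d ∉ ObGam c d₀ → f (tip d) = f d.1 := by
  classical
  set ψ : V × Fin 6 → ℤ := fun d =>
    if d ∈ ObGam c d₀ then 1 else if rev d ∈ ObGam c d₀ then -1 else 0 with hψ
  have ψ1 : ∀ d, d ∈ ObGam c d₀ → ψ d = 1 := fun d hd => if_pos hd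
  have ψ2 : ∀ d, rev d ∈ ObGam c d₀ → ψ d = -1 := fun d hd => by
    have : d ∉ ObGam c d₀ := fun h' => obgam_not_both hcut hloop h' hd
    simp only [hψ, if_neg this, if_pos hd]
  have ψ3 : ∀ d, c d.1 = c (tip d) → ψ d = 0 := fun d hd => by
    have h1 : d ∉ ObGam c d₀ := fun h' => obgam_cut hcut h' hd
    have h2 : rev d ∉ ObGam c d₀ := fun h' => by
      have := obgam_cut hcut h'
      rw [isCut_rev] at this
      exact this hd
    simp only [hψ, if_neg h1, if_neg h2]
  have ψ4 : ∀ d, d ∉ ObGam c d₀ → rev d ∉ ObGam c d₀ → ψ d = 0 := fun d h1 h2 => by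
    simp only [hψ, if_neg h1, if_neg h2]
  have hrev : ∀ d, ψ (rev d) = - ψ d := by
    intro d
    by_cases h1 : d ∈ ObGam c d₀
    · rw [ψ1 d h1, ψ2 (rev d) (by rw [rev_rev]; exact h1)]
    · by_cases h2 : rev d ∈ ObGam c d₀
      · rw [ψ1 _ h2, ψ2 d h2]; ring
      · rw [ψ4 d h1 h2, ψ4 (rev d) h2 (by rw [rev_rev]; exact h1)]; ring
  have hA : ∀ d, d ∈ ObGam c d₀ → ψ d + ψ (obrot d) + ψ (obrot (obrot d)) = 0 := by
    rintro ⟨x, k⟩ hd
    have hcutd := obgam_cut hcut hd
    obtain ⟨m, hm⟩ := id hd
    have hnc : ¬ IsCorner c (x, k) := hm ▸ hloop m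
    have hnext := obgam_next hd
    by_cases h1 : c (x + dir (k + 1)) = c x
    · have e1 : next c (x, k) = (x + dir (k + 1), k - 1) := if_pos h1
      rw [e1, ← ob_rev_rot] at hnext
      rw [ψ1 _ hd, ψ2 _ hnext, ψ3 (obrot (obrot (x, k)))
        (by rw [ob_tip_rot2, obrot2]; exact h1)]
      ring
    · have e1 : next c (x, k) = (x, k + 1) := if_neg h1
      rw [e1, ← ob_rev_rot2] at hnext
      have h2 : c (x + dir (k + 1)) = c (x + dir k) := by
        by_contra h2
        exact hnc ⟨hcutd, h1, h2⟩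
      rw [ψ1 _ hd, ψ2 _ hnext, ψ3 (obrot (x, k)) (by rw [ob_tip_rot]; exact h2.symm)]
      ring
  have hcyc : ∀ d, d ∈ ObGam c d₀ ∨ obrot d ∈ ObGam c d₀ ∨ obrot (obrot d) ∈ ObGam c d₀ →
      ψ d + ψ (obrot d) + ψ (obrot (obrot d)) = 0 := by
    intro d hd
    rcases hd with hd | hd | hd
    · exact hA d hd
    · have := hA _ hd
      rw [obrot3] at this
      linarith
    · have := hA _ hd
      rw [obrot3] at this
      linarith
  have hB : ∀ d, rev d ∈ ObGam c d₀ → obrot d ∈ ObGam c d₀ ∨ obrot (obrot d) ∈ ObGam c d₀ := by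
    rintro ⟨x, k⟩ hd
    have hp := obgam_prev h hcut hd
    have e0 : k + 3 - 1 = k + 2 := by clear hd hp; revert k; decide
    have e1 : k + 3 + 1 = k + 4 := by clear hd hp; revert k; decide
    unfold prev at hp
    split_ifs at hp with h1
    · right
      rw [obrot2]
      simp only [rev, e0, e1, ob_a] at hp
      exact hp
    · left
      simp only [rev, e0] at hp
      exact hp
  have hS : ∀ d, ψ d + ψ (obrot d) + ψ (obrot (obrot d)) = 0 := by
    intro d
    by_cases h0 : d ∈ ObGam c d₀
    · exact hcyc d (Or.inl h0)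
    by_cases h1 : obrot d ∈ ObGam c d₀
    · exact hcyc d (Or.inr (Or.inl h1))
    by_cases h2 : obrot (obrot d) ∈ ObGam c d₀
    · exact hcyc d (Or.inr (Or.inr h2))
    have r0 : rev d ∉ ObGam c d₀ := fun hr => (hB d hr).elim h1 h2
    have r1 : rev (obrot d) ∉ ObGam c d₀ := fun hr => by
      rcases hB _ hr with h' | h'
      · exact h2 h'
      · rw [obrot3] at h'; exact h0 h'
    have r2 : rev (obrot (obrot d)) ∉ ObGam c d₀ := fun hr => by
      rcases hB _ hr with h' | h'
      · rw [obrot3] at h'; exact h0 h'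
      · rw [obrot3] at h'; exact h1 h'
    rw [ψ4 d h0 r0, ψ4 _ h1 r1, ψ4 _ h2 r2]
    ring
  obtain ⟨f, hf⟩ := exact_cochain (fun x k => ψ (x, k))
    (fun x k => hrev (x, k)) (fun x k => by
      have := hS (x, k)
      rw [obrot2] at this
      exact this)
  have hf' : ∀ d : V × Fin 6, f (tip d) - f d.1 = ψ d := fun d => hf d.1 d.2
  have hmem : d₀ ∈ ObGam c d₀ := ⟨0, rfl⟩
  refine ⟨f, ?_, fun d h1 h2 => ?_⟩
  · have := hf' d₀
    rw [ψ1 _ hmem] at this
    linarith
  · have hfd := hf' d
    rw [ψ4 _ h1 h2] at hfd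
    linarith

theorem orbit {c : V → ι} {o : ι} {n : ℕ} (h : OutBox c o n) (hc : Conn c) {i : ι} (hi : i ≠ o)
    (hco : CoConn c i) {d d' : V × Fin 6} (hd : IsCut c d) (h1 : c d.1 = i) (hd' : IsCut c d')
    (h1' : c d'.1 = i) : ∃ m : ℕ, (next c)^[m] d = d' := by
  classical
  set b : V → Bool := fun x => decide (c x = i) with hbdef
  have hbt : ∀ x, c x = i → b x = true := fun x hx => decide_eq_true hx
  have hbf : ∀ x, c x ≠ i → b x = false := fun x hx => decide_eq_false hx
  have hb : OutBox b false n := fun x hx => hbf x (by rw [h x hx]; exact hi.symm)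
  have hcutb : IsCut b d := by
    unfold IsCut
    rw [hbt _ h1, hbf (tip d) (fun h2 => hd (h1.trans h2.symm))]
    simp
  have hnc : ∀ e, ¬ IsCorner b e := by
    rintro e ⟨e1, e2, e3⟩
    revert e1 e2 e3
    cases b e.1 <;> cases b (tip e) <;> cases b (third e) <;> simp
  have hstep : ∀ e : V × Fin 6, c e.1 = i → next b e = next c e := by
    intro e he
    have hiff : b (third e) = b e.1 ↔ c (third e) = c e.1 := by
      rw [hbt _ he, he]
      by_cases h2 : c (third e) = i
      · rw [hbt _ h2]
        simp [h2]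
      · rw [hbf _ h2]
        simp [h2]
    unfold next
    by_cases h2 : c (third e) = c e.1
    · rw [if_pos (hiff.2 h2), if_pos h2]
    · rw [if_neg (fun h3 => h2 (hiff.1 h3)), if_neg h2]
  have hiter : ∀ m, (next b)^[m] d = (next c)^[m] d := by
    intro m
    induction m with
    | zero => rfl
    | succ m ih =>
      rw [Function.iterate_succ_apply', Function.iterate_succ_apply', ih]
      exact hstep _ ((edart_class c d m).trans h1)
  obtain ⟨f, hf1, hf2⟩ := ob_pot hb hcutb (fun m => hnc _)
  have hsame : ∀ e : V × Fin 6, b e.1 = b (tip e) → f (tip e) = f e.1 := by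
    intro e he
    apply hf2
    · intro h2
      exact obgam_cut hcutb h2 he
    · intro h2
      have h3 := obgam_cut hcutb h2
      rw [isCut_rev] at h3
      exact h3 he
  have hin : ∀ x y, Relation.ReflTransGen (Adj1 c) x y → f y = f x := by
    intro x y hxy
    induction hxy with
    | refl => rfl
    | tail _ h2 ih =>
      rename_i u v _
      obtain ⟨h3, k, rfl⟩ := h2
      rw [← ih]
      apply hsame (u, k)
      change b u = b (u + dir k)
      by_cases h4 : c u = i
      · rw [hbt _ h4, hbt _ (h3 ▸ h4)]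
      · rw [hbf _ h4, hbf _ (fun h5 => h4 (h3.trans h5))]
  have hout : ∀ x y, Relation.ReflTransGen (Off c i) x y → f y = f x := by
    intro x y hxy
    induction hxy with
    | refl => rfl
    | tail _ h2 ih =>
      rename_i u v _
      obtain ⟨h3, h4, k, rfl⟩ := h2
      rw [← ih]
      apply hsame (u, k)
      change b u = b (u + dir k)
      rw [hbf _ h3, hbf _ h4]
  by_contra hcon
  have hn1 : d' ∉ ObGam b d := by
    rintro ⟨m, hm⟩
    exact hcon ⟨m, by rw [← hiter m]; exact hm⟩
  have htd : c (tip d) ≠ i := fun h2 => hd (h1.trans h2.symm)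
  have htd' : c (tip d') ≠ i := fun h2 => hd' (h1'.trans h2.symm)
  have hn2 : rev d' ∉ ObGam b d := by
    intro h2
    have h3 : b (tip d') = b d.1 := obgam_class h2
    rw [hbt _ h1, hbf _ htd'] at h3
    exact absurd h3 (by simp)
  have e1 := hf2 d' hn1 hn2
  have e2 : f d'.1 = f d.1 := hin _ _ (hc _ _ (h1.trans h1'.symm))
  have e3 : f (tip d') = f (tip d) := hout _ _ (hco _ _ htd htd')
  rw [e3, e2, hf1] at e1
  linarith

end Pool.Agent.Helper98.LC3
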